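import Pool.Agent.Lib.MP_524519_ag.DU5.TE.Iface
import Pool.Agent.Lib.MP_524519_ag.DU5.LNK.NIL

/-!
# DU5, chapter TE, module SPM: monomials span the quotient by an ideal of finite colength (helper50)
-/

set_option autoImplicit false

namespace Pool.Agent.DU5.TE

open MvPowerSeries

namespace SPM

variable {F : Type} [Field F]

theorem mon (a : F) (i j : ℕ) : MvPowerSeries.C a * (X 0 : PC.R2 F) ^ i * (X 1 : PC.R2 F) ^ j =
    monomial (Finsupp.single 0 i + Finsupp.single 1 j) a := by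
  rw [X_pow_eq, X_pow_eq, ← monomial_zero_eq_C_apply, monomial_mul_monomial, monomial_mul_monomial,
    zero_add, mul_one, mul_one]

theorem exp_eq (α : Fin 2 →₀ ℕ) : Finsupp.single 0 (α 0) + Finsupp.single 1 (α 1) = α := by
  ext l
  fin_cases l <;> simp

theorem coeff_sum (M : ℕ) (s : PC.R2 F) (α : Fin 2 →₀ ℕ) :
    coeff α (∑ i : Fin M, ∑ j : Fin M, MvPowerSeries.C
      (coeff (Finsupp.single 0 (i : ℕ) + Finsupp.single 1 (j : ℕ)) s) * (X 0 : PC.R2 F) ^ (i : ℕ) *
      (X 1 : PC.R2 F) ^ (j : ℕ)) = if α 0 < M ∧ α 1 < M then coeff α s else 0 := by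
  classical
  have h1 : ∀ i j : Fin M, coeff α (MvPowerSeries.C
      (coeff (Finsupp.single 0 (i : ℕ) + Finsupp.single 1 (j : ℕ)) s) * (X 0 : PC.R2 F) ^ (i : ℕ) *
      (X 1 : PC.R2 F) ^ (j : ℕ)) = if (i : ℕ) = α 0 ∧ (j : ℕ) = α 1 then coeff α s else 0 := by
    intro i j
    rw [mon, coeff_monomial]
    by_cases h : (i : ℕ) = α 0 ∧ (j : ℕ) = α 1
    · rw [if_pos h, h.1, h.2, exp_eq, if_pos rfl]
    · rw [if_neg h, if_neg]
      intro h2
      apply h
      rw [h2]
      simp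
  rw [map_sum]
  simp only [map_sum, h1]
  by_cases h : α 0 < M ∧ α 1 < M
  · rw [if_pos h, Finset.sum_eq_single (⟨α 0, h.1⟩ : Fin M), Finset.sum_eq_single (⟨α 1, h.2⟩ : Fin M)]
    · simp
    · intro j _ hj
      rw [if_neg]
      rintro ⟨_, h2⟩
      exact hj (Fin.ext h2)
    · intro h2
      exact absurd (Finset.mem_univ _) h2
    · intro i _ hi
      refine Finset.sum_eq_zero fun j _ => ?_
      rw [if_neg]
      rintro ⟨h2, _⟩
      exact hi (Fin.ext h2)
    · intro h2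
      exact absurd (Finset.mem_univ _) h2
  · rw [if_neg h]
    refine Finset.sum_eq_zero fun i _ => Finset.sum_eq_zero fun j _ => ?_
    rw [if_neg]
    rintro ⟨h2, h3⟩
    exact h ⟨h2 ▸ i.2, h3 ▸ j.2⟩

theorem coeff_pow_mul (l : Fin 2) (M : ℕ) (g : PC.R2 F) (α : Fin 2 →₀ ℕ) :
    coeff α ((X l : PC.R2 F) ^ M * g) =
      if M ≤ α l then coeff (α - Finsupp.single l M) g else 0 := by
  classical
  rw [X_pow_eq, coeff_monomial_mul, one_mul]
  simp only [Finsupp.single_le_iff]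

end SPM

open SPM in
theorem spm : SpmStatement := by
  classical
  intro F _ I hI
  obtain ⟨M, hM⟩ := ENat.ne_top_iff_exists.1 hI
  have h0 : (X 0 : PC.R2 F) ^ M ∈ I := LNK.nil F 2 I M (le_of_eq hM.symm) 0
  have h1 : (X 1 : PC.R2 F) ^ M ∈ I := LNK.nil F 2 I M (le_of_eq hM.symm) 1
  refine ⟨M, fun s => ⟨fun i j => coeff (Finsupp.single 0 (i : ℕ) + Finsupp.single 1 (j : ℕ)) s, ?_⟩⟩
  let s' : PC.R2 F := fun e => coeff (e + Finsupp.single 0 M) s
  let s'' : PC.R2 F := fun e => if e 0 < M then coeff (e + Finsupp.single 1 M) s else 0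
  have hs' : ∀ e, coeff e s' = coeff (e + Finsupp.single 0 M) s := fun _ => rfl
  have hs'' : ∀ e, coeff e s'' = if e 0 < M then coeff (e + Finsupp.single 1 M) s else 0 :=
    fun _ => rfl
  have key : s - ∑ i : Fin M, ∑ j : Fin M, MvPowerSeries.C
      (coeff (Finsupp.single 0 (i : ℕ) + Finsupp.single 1 (j : ℕ)) s) * (X 0 : PC.R2 F) ^ (i : ℕ) *
      (X 1 : PC.R2 F) ^ (j : ℕ) = (X 0 : PC.R2 F) ^ M * s' + (X 1 : PC.R2 F) ^ M * s'' := by
    ext α
    rw [map_sub, map_add, coeff_sum, coeff_pow_mul, coeff_pow_mul, hs', hs'']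
    have e0 : M ≤ α 0 → α - Finsupp.single 0 M + Finsupp.single 0 M = α := by
      intro h
      exact tsub_add_cancel_of_le (Finsupp.single_le_iff.2 h)
    have e1 : M ≤ α 1 → α - Finsupp.single 1 M + Finsupp.single 1 M = α := by
      intro h
      exact tsub_add_cancel_of_le (Finsupp.single_le_iff.2 h)
    have e2 : (α - Finsupp.single 1 M : Fin 2 →₀ ℕ) 0 = α 0 := by
      rw [Finsupp.tsub_apply]
      simp
    rw [e2]
    by_cases a0 : M ≤ α 0
    · rw [if_neg (by omega), if_pos a0, e0 a0, if_neg (by omega : ¬ α 0 < M)]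
      simp
    · rw [if_neg a0]
      by_cases a1 : M ≤ α 1
      · rw [if_neg (by omega), if_pos a1, if_pos (by omega), e1 a1]
        simp
      · rw [if_pos (by omega), if_neg a1]
        simp
  change s - ∑ i : Fin M, ∑ j : Fin M, MvPowerSeries.C
      (coeff (Finsupp.single 0 (i : ℕ) + Finsupp.single 1 (j : ℕ)) s) * (X 0 : PC.R2 F) ^ (i : ℕ) *
      (X 1 : PC.R2 F) ^ (j : ℕ) ∈ I
  rw [key]
  exact I.add_mem (I.mul_mem_right _ h0) (I.mul_mem_right _ h1)

end Pool.Agent.DU5.TE
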