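import Pool.Agent.Lib.MP_524519_ag.DU5.TE.Iface

/-!
# DU5, chapter TE, module BCD: extension of the field (helper50)
-/

set_option autoImplicit false

namespace Pool.Agent.DU5.TE

open MvPowerSeries

theorem BCD.hasSubst {F : Type} [Field F] (lam : F) :
    HasSubst ![(X 1 : PC.R2 F), X 0, C lam * X 0] := by
  refine hasSubst_of_constantCoeff_zero fun i => ?_
  fin_cases i <;> simp

theorem bcd : BcdStatement := by
  intro k F _ _ _ lam
  refine ⟨fun i h => ?_, fun h => ?_⟩
  · ext α
    unfold bc
    rw [coeff_pderiv, coeff_map, coeff_map, coeff_pderiv, map_mul]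
    simp
  · ext α
    unfold rs
    rw [coeff_subst (BCD.hasSubst lam), coeff_subst (BCD.hasSubst lam)]
    refine finsum_congr fun d => ?_
    unfold bc
    rw [coeff_map, algebraMap_smul]

end Pool.Agent.DU5.TE
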